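import Mathlib

/-!
# Lacunary elements in coprime classes

Given primes `p_i`, `i < k`, with product `D`, we use the integers
`s(i, c, l) = D B ^ (e + 1) + (D / p_i) c`, `1 ≤ c < p_i`, with an exponent `e` which determines
`(i, c, l)`.  They are divisible by all `p_j`, `j ≠ i`, but not by `p_i`.
-/

set_option autoImplicit false
open Finset

namespace Pool.Agent.X160.Gs

/-- The index `(i, c, l)`. -/
abbrev Idx (k : ℕ) : Type := Fin k × ℕ × ℕ

variable {k : ℕ}

/-- The exponent. -/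
def ex (y : Idx k) : ℕ := Nat.pair (Nat.pair y.1 y.2.1) y.2.2

theorem ex_injective : Function.Injective (ex : Idx k → ℕ) := by
  intro y z h
  unfold ex at h
  rw [Nat.pair_eq_pair, Nat.pair_eq_pair] at h
  obtain ⟨⟨h1, h2⟩, h3⟩ := h
  ext
  · exact h1
  · exact h2
  · exact h3

/-- `D / p_i`. -/
def co (p : Fin k → ℕ) (i : Fin k) : ℕ := ∏ j ∈ univ.erase i, p j

/-- The product of the primes. -/
def D (p : Fin k → ℕ) : ℕ := ∏ j, p j

theorem D_eq (p : Fin k → ℕ) (i : Fin k) : D p = p i * co p i := by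
  unfold D co
  rw [mul_prod_erase _ _ (mem_univ i)]

/-- The lacunary elements. -/
def el (p : Fin k → ℕ) (B : ℕ) (y : Idx k) : ℤ :=
  (D p : ℤ) * (B : ℤ) ^ (ex y + 1) + (co p y.1 : ℤ) * (y.2.1 : ℤ)

/-- The admissible indices. -/
def Good (p : Fin k → ℕ) (y : Idx k) : Prop := 1 ≤ y.2.1 ∧ y.2.1 < p y.1

variable {p : Fin k → ℕ} {B : ℕ}

theorem D_pos (hp : ∀ i, (p i).Prime) : 0 < D p := prod_pos fun i _ => (hp i).pos

theorem el_lower (y : Idx k) : (D p : ℤ) * (B : ℤ) ^ (ex y + 1) ≤ el p B y := by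
  unfold el
  have : (0 : ℤ) ≤ (co p y.1 : ℤ) * (y.2.1 : ℤ) := by positivity
  linarith

theorem el_upper (hp : ∀ i, (p i).Prime) (y : Idx k) (hy : Good p y) :
    el p B y ≤ (D p : ℤ) * ((B : ℤ) ^ (ex y + 1) + 1) := by
  unfold el
  have h1 : co p y.1 * y.2.1 ≤ D p := by
    rw [D_eq p y.1, mul_comm (p y.1)]
    exact Nat.mul_le_mul_left _ hy.2.le
  have h2 : (co p y.1 : ℤ) * (y.2.1 : ℤ) ≤ (D p : ℤ) := by exact_mod_cast h1
  linarith

/-- The value of an integral combination. -/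
noncomputable def S (p : Fin k → ℕ) (B : ℕ) : (Idx k →₀ ℤ) →ₗ[ℤ] ℤ :=
  Finsupp.linearCombination ℤ (el p B)

/-- The sum of the absolute values of the coefficients. -/
noncomputable def n1 (a : Idx k →₀ ℤ) : ℤ := ∑ y ∈ a.support, |a y|

theorem n1_eq (a : Idx k →₀ ℤ) (F : Finset (Idx k)) (h : a.support ⊆ F) :
    n1 a = ∑ y ∈ F, |a y| := by
  unfold n1
  refine sum_subset h fun y _ hy => ?_
  rw [Finsupp.notMem_support_iff.1 hy, abs_zero]

open Classical in
theorem n1_add (a b : Idx k →₀ ℤ) : n1 (a + b) ≤ n1 a + n1 b := by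
  rw [n1_eq (a + b) (a.support ∪ b.support) Finsupp.support_add,
    n1_eq a (a.support ∪ b.support) subset_union_left,
    n1_eq b (a.support ∪ b.support) subset_union_right, ← sum_add_distrib]
  exact sum_le_sum fun y _ => abs_add_le _ _

theorem n1_single (y : Idx k) (c : ℤ) : n1 (Finsupp.single y c) = |c| := by
  rw [n1_eq _ {y} Finsupp.support_single_subset]
  simp

theorem n1_sum {ι : Type*} (F : Finset ι) (a : ι → Idx k →₀ ℤ) (c : ℤ)
    (h : ∀ i ∈ F, n1 (a i) ≤ c) : n1 (∑ i ∈ F, a i) ≤ F.card * c := by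
  classical
  induction F using Finset.induction_on with
  | empty => simp [n1]
  | insert x F hx ih =>
    rw [sum_insert hx, card_insert_of_notMem hx]
    have h1 := n1_add (a x) (∑ i ∈ F, a i)
    have h2 := h x (mem_insert_self _ _)
    have h3 := ih fun i hi => h i (mem_insert_of_mem hi)
    push_cast
    linarith

/-- **Domination.** A nonzero combination with at most `N` terms is dominated by its largest
term. -/
theorem dom (hp : ∀ i, (p i).Prime) {N : ℕ} (hN : 1 ≤ N) (hB : 8 * N ≤ B) (a : Idx k →₀ ℤ)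
    (ha : a ≠ 0) (hn : n1 a ≤ N) (hg : ∀ y ∈ a.support, Good p y) :
    ∃ y ∈ a.support, (∀ z ∈ a.support, ex z ≤ ex y) ∧
      |S p B a - a y * el p B y| * 4 ≤ (D p : ℤ) * (B : ℤ) ^ (ex y + 1) := by
  classical
  have hne : a.support.Nonempty := Finsupp.support_nonempty_iff.2 ha
  obtain ⟨y, hy, hmax⟩ := exists_max_image a.support ex hne
  refine ⟨y, hy, hmax, ?_⟩
  have hS : S p B a = ∑ z ∈ a.support, a z * el p B z := by
    unfold S
    rw [Finsupp.linearCombination_apply, Finsupp.sum]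
    simp
  have h1 : S p B a - a y * el p B y = ∑ z ∈ a.support.erase y, a z * el p B z := by
    rw [hS, ← add_sum_erase _ _ hy]; ring
  have hB1 : (1 : ℤ) ≤ B := by exact_mod_cast (by omega : 1 ≤ B)
  have hD0 : (0 : ℤ) ≤ D p := Int.natCast_nonneg _
  have h2 : ∀ z ∈ a.support.erase y, |a z * el p B z| ≤ |a z| * ((D p : ℤ) * (2 * (B : ℤ) ^ ex y)) := by
    intro z hz
    have hz1 := mem_of_mem_erase hz
    have hlt : ex z < ex y := lt_of_le_of_ne (hmax z hz1) fun h =>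
      (ne_of_mem_erase hz) (ex_injective h)
    rw [abs_mul]
    refine mul_le_mul_of_nonneg_left ?_ (abs_nonneg _)
    have h3 := el_upper (B := B) hp z (hg z hz1)
    have h4 : (B : ℤ) ^ (ex z + 1) ≤ (B : ℤ) ^ ex y := pow_le_pow_right₀ hB1 hlt
    have h5 : (1 : ℤ) ≤ (B : ℤ) ^ ex y := one_le_pow₀ hB1
    have h6 : 0 ≤ el p B z := le_trans (by positivity) (el_lower (p := p) (B := B) z)
    rw [abs_of_nonneg h6]
    refine h3.trans (mul_le_mul_of_nonneg_left (by linarith) hD0)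
  have h3 : |S p B a - a y * el p B y| ≤ (N : ℤ) * ((D p : ℤ) * (2 * (B : ℤ) ^ ex y)) := by
    rw [h1]
    refine (abs_sum_le_sum_abs _ _).trans ((sum_le_sum h2).trans ?_)
    rw [← sum_mul]
    refine mul_le_mul_of_nonneg_right ?_ (by positivity)
    refine le_trans ?_ hn
    unfold n1
    exact sum_le_sum_of_subset_of_nonneg (erase_subset _ _) fun _ _ _ => abs_nonneg _
  have h4 : (8 * N : ℤ) ≤ B := by exact_mod_cast hB
  have h5 : (0 : ℤ) ≤ (D p : ℤ) * (B : ℤ) ^ ex y := by positivity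
  calc |S p B a - a y * el p B y| * 4 ≤ (N : ℤ) * ((D p : ℤ) * (2 * (B : ℤ) ^ ex y)) * 4 := by
        linarith
    _ = (8 * N) * ((D p : ℤ) * (B : ℤ) ^ ex y) := by ring
    _ ≤ B * ((D p : ℤ) * (B : ℤ) ^ ex y) := mul_le_mul_of_nonneg_right h4 h5
    _ = (D p : ℤ) * (B : ℤ) ^ (ex y + 1) := by ring

/-- A nonzero combination is large. -/
theorem big (hp : ∀ i, (p i).Prime) {N : ℕ} (hN : 1 ≤ N) (hB : 8 * N ≤ B) (a : Idx k →₀ ℤ)
    (ha : a ≠ 0) (hn : n1 a ≤ N) (hg : ∀ y ∈ a.support, Good p y) (z : Idx k)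
    (hz : z ∈ a.support) : (D p : ℤ) * (B : ℤ) ^ (ex z + 1) ≤ 2 * |S p B a| := by
  obtain ⟨y, hy, hmax, h⟩ := dom hp hN hB a ha hn hg
  have hB1 : (1 : ℤ) ≤ B := by exact_mod_cast (by omega : 1 ≤ B)
  have h1 : (B : ℤ) ^ (ex z + 1) ≤ (B : ℤ) ^ (ex y + 1) :=
    pow_le_pow_right₀ hB1 (by have := hmax z hz; omega)
  have hD0 : (0 : ℤ) ≤ D p := Int.natCast_nonneg _
  have h2 : (D p : ℤ) * (B : ℤ) ^ (ex z + 1) ≤ (D p : ℤ) * (B : ℤ) ^ (ex y + 1) :=
    mul_le_mul_of_nonneg_left h1 hD0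
  have h3 := el_lower (p := p) (B := B) y
  have h4 : (0 : ℤ) ≤ (D p : ℤ) * (B : ℤ) ^ (ex y + 1) := by positivity
  have h5 : el p B y ≤ |a y * el p B y| := by
    rw [abs_mul, abs_of_nonneg (h4.trans h3)]
    have : (1 : ℤ) ≤ |a y| := Int.one_le_abs (Finsupp.mem_support_iff.1 hy)
    nlinarith
  have h6 : |a y * el p B y| ≤ |S p B a| + |S p B a - a y * el p B y| := by
    have := abs_sub_abs_le_abs_sub (a y * el p B y) (S p B a)
    rw [abs_sub_comm] at this
    linarith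
  linarith

/-! ### Divisibility -/

theorem dvd_D (p : Fin k → ℕ) (i : Fin k) : (p i : ℤ) ∣ (D p : ℤ) := by
  rw [D_eq p i]; push_cast; exact Dvd.intro _ rfl

theorem dvd_el (y : Idx k) (i : Fin k) (hi : i ≠ y.1) : (p i : ℤ) ∣ el p B y := by
  unfold el
  refine dvd_add (Dvd.dvd.mul_right (dvd_D p i) _) (Dvd.dvd.mul_right ?_ _)
  unfold co
  push_cast
  exact dvd_prod_of_mem (fun j => (p j : ℤ)) (mem_erase.2 ⟨hi, mem_univ _⟩)

theorem coprime_co (hp : ∀ i, (p i).Prime) (hinj : Function.Injective p) (i : Fin k) :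
    Nat.Coprime (co p i) (p i) := by
  unfold co
  refine Nat.Coprime.prod_left fun j hj => ?_
  exact (Nat.coprime_primes (hp j) (hp i)).2 fun h => (ne_of_mem_erase hj) (hinj h)

theorem not_dvd_el (hp : ∀ i, (p i).Prime) (hinj : Function.Injective p) (y : Idx k)
    (hy : Good p y) : ¬ (p y.1 : ℤ) ∣ el p B y := by
  intro h
  unfold el at h
  have h1 := (dvd_add_right (Dvd.dvd.mul_right (dvd_D p y.1) _)).1 h
  have h2 : p y.1 ∣ co p y.1 * y.2.1 := by exact_mod_cast h1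
  have h3 := (Nat.Coprime.dvd_of_dvd_mul_left (coprime_co hp hinj y.1).symm h2)
  have := Nat.le_of_dvd (by have := hy.1; omega) h3
  have := hy.2
  omega

/-- All nonzero residues occur with arbitrarily large exponents. -/
theorem exists_res (hp : ∀ i, (p i).Prime) (hinj : Function.Injective p) (i : Fin k) (n : ℤ)
    (hn : ¬ (p i : ℤ) ∣ n) (T : ℕ) : ∃ y : Idx k, y.1 = i ∧ Good p y ∧ T ≤ ex y ∧
      (p i : ℤ) ∣ n - el p B y := by
  haveI : Fact (p i).Prime := ⟨hp i⟩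
  have hco : ((co p i : ℕ) : ZMod (p i)) ≠ 0 := by
    rw [Ne, ZMod.natCast_eq_zero_iff]
    intro h
    have h1 := Nat.dvd_gcd h dvd_rfl
    rw [coprime_co hp hinj i] at h1
    exact (hp i).one_lt.ne' (Nat.dvd_one.1 h1)
  have hnz : (n : ZMod (p i)) ≠ 0 := by
    rw [Ne, ZMod.intCast_zmod_eq_zero_iff_dvd]
    exact hn
  set c : ℕ := ((n : ZMod (p i)) * ((co p i : ℕ) : ZMod (p i))⁻¹).val with hc
  have hc0 : c ≠ 0 := by
    intro h0
    have : (n : ZMod (p i)) * ((co p i : ℕ) : ZMod (p i))⁻¹ = 0 := by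
      rw [← ZMod.val_eq_zero]; exact h0
    rcases mul_eq_zero.1 this with h | h
    · exact hnz h
    · exact hco (inv_eq_zero.1 h)
  refine ⟨(i, c, T), rfl, ⟨Nat.one_le_iff_ne_zero.2 hc0, ZMod.val_lt _⟩, ?_, ?_⟩
  · exact Nat.right_le_pair _ _
  · rw [← ZMod.intCast_zmod_eq_zero_iff_dvd]
    have hD : ((D p : ℕ) : ZMod (p i)) = 0 := by
      rw [ZMod.natCast_eq_zero_iff]
      exact_mod_cast dvd_D p i
    unfold el
    push_cast
    rw [hD, zero_mul, zero_add, hc, ZMod.natCast_val, ZMod.cast_id', id]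
    rw [mul_comm (n : ZMod (p i)), mul_inv_cancel_left₀ hco, sub_self]

theorem dvd_of_forall (hp : ∀ i, (p i).Prime) (hinj : Function.Injective p) (n : ℤ)
    (h : ∀ i, (p i : ℤ) ∣ n) : (D p : ℤ) ∣ n := by
  unfold D
  push_cast
  refine Finset.prod_dvd_of_coprime (fun i _ j _ hij => ?_) fun i _ => h i
  have := (Nat.coprime_primes (hp i) (hp j)).2 fun h => hij (hinj h)
  exact Int.isCoprime_iff_gcd_eq_one.2 (by simpa [Int.gcd] using this)

end Pool.Agent.X160.Gs
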