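import Pool.Agent.X160.Gs.Main

/-!
# The density of the generating set
-/

set_option autoImplicit false
open Finset

namespace Pool.Agent.X160.Gs

/-- The counting function. -/
noncomputable def cnt (A : Set ℕ) (t : ℝ) : ℕ := Set.ncard {a | a ∈ A ∧ (a : ℝ) ≤ t}

theorem cnt_finite (A : Set ℕ) (t : ℝ) : {a | a ∈ A ∧ (a : ℝ) ≤ t}.Finite := by
  refine (Set.finite_Iic ⌊t⌋₊).subset ?_
  rintro a ⟨_, ha⟩
  exact Nat.le_floor ha

theorem cnt_le (A : Set ℕ) (hA : 0 ∉ A) (t : ℝ) (ht : 0 ≤ t) : (cnt A t : ℝ) ≤ t := by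
  have h1 : {a | a ∈ A ∧ (a : ℝ) ≤ t} ⊆ ((Finset.Icc 1 ⌊t⌋₊ : Finset ℕ) : Set ℕ) := by
    rintro a ⟨ha, hat⟩
    rw [coe_Icc]
    refine ⟨Nat.one_le_iff_ne_zero.2 ?_, Nat.le_floor hat⟩
    rintro rfl
    exact hA ha
  have h2 := Set.ncard_le_ncard h1 (Finset.finite_toSet _)
  rw [Set.ncard_coe_finset, Nat.card_Icc, Nat.add_sub_cancel] at h2
  exact (Nat.cast_le.2 h2).trans (Nat.floor_le ht)

variable {k : ℕ} {p : Fin k → ℕ} {B W0 : ℕ} {W : Finset ℕ}

/-- The generating set has positive lower density. -/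
theorem cnt_lower (h : Hyp k p B W0 W) :
    ∃ c : ℝ, 0 < c ∧ ∃ t0 : ℝ, ∀ t : ℝ, t0 ≤ t → c * t ≤ cnt (A p B W) t := by
  have hBbig := h.big
  set Q : ℕ := 6 * (2 * k + 2) * D p with hQ
  have hQ0 : 0 < Q := Nat.mul_pos (by omega) (D_pos h.hp)
  have hQr : (0 : ℝ) < Q := by exact_mod_cast hQ0
  have hBr : (1 : ℝ) < B := by exact_mod_cast (by omega : 1 < B)
  have hB0 : (0 : ℝ) < B := by linarith
  refine ⟨1 / (Q * B), by positivity, Q * B, fun t ht => ?_⟩
  have h1 : (1 : ℝ) ≤ t / (Q * B) := by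
    rw [le_div_iff₀ (by positivity)]; linarith
  obtain ⟨n, hn1, hn2⟩ := exists_nat_pow_near h1 hBr
  -- `Q * B ^ (n + 1) ≤ t < Q * B ^ (n + 2)`
  set E := n + 1 with hE
  have hlow : (Q : ℝ) * (B : ℝ) ^ E ≤ t := by
    rw [le_div_iff₀ (by positivity)] at hn1
    calc (Q : ℝ) * (B : ℝ) ^ E = (B : ℝ) ^ n * (Q * B) := by rw [hE, pow_succ]; ring
      _ ≤ t := hn1
  have hup : t < (B : ℝ) ^ E * (Q * B) := by
    rwa [div_lt_iff₀ (by positivity)] at hn2
  have hpow : B ^ (E + 1) = B * B ^ E := by rw [pow_succ, mul_comm]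
  have hpos : 0 < B ^ E := Nat.pow_pos (by omega)
  have hBE : 24 * (2 * k + 2) * B ^ E < B * B ^ E :=
    Nat.mul_lt_mul_of_pos_right (by omega) hpos
  have hN : B ^ E ≤ (2 * k + 2) * B ^ E := Nat.le_mul_of_pos_left _ (by omega)
  set R := (2 * k + 2) * B ^ E with hR
  have e1 : 24 * (2 * k + 2) * B ^ E = 24 * R := by rw [hR]; ring
  have e2 : 4 * (2 * k + 2) * B ^ E = 4 * R := by rw [hR]; ring
  have hs : ∀ u, u ≤ B ^ E → D p * (5 * R + u) ∈ M p B W := by
    intro u hu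
    refine safe_mem h _ E (by omega) (by rw [e2]; omega) (by rw [hpow]; omega)
  set F : Finset ℕ := (range (B ^ E)).image (fun u => D p * (5 * R + u)) with hF
  have hFcard : F.card = B ^ E := by
    rw [hF, card_image_of_injective, card_range]
    intro u v huv
    have := Nat.eq_of_mul_eq_mul_left (D_pos h.hp) huv
    omega
  have hsub : (F : Set ℕ) ⊆ {a | a ∈ A p B W ∧ (a : ℝ) ≤ t} := by
    intro a ha
    rw [mem_coe, hF, mem_image] at ha
    obtain ⟨u, hu, rfl⟩ := ha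
    rw [mem_range] at hu
    refine ⟨Or.inl (hs u hu.le), ?_⟩
    refine le_trans ?_ hlow
    have h3 : D p * (5 * R + u) ≤ Q * B ^ E := by
      have h4 : Q * B ^ E = D p * (6 * R) := by rw [hQ, hR]; ring
      rw [h4]
      exact Nat.mul_le_mul_left _ (by omega)
    exact_mod_cast h3
  have h5 := Set.ncard_le_ncard hsub (cnt_finite _ _)
  rw [Set.ncard_coe_finset, hFcard] at h5
  have h6 : ((B : ℝ) ^ E) ≤ cnt (A p B W) t := by exact_mod_cast h5
  refine le_trans ?_ h6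
  rw [one_div, inv_mul_le_iff₀ (by positivity)]
  linarith

/-- Distinct primes above a bound. -/
theorem exists_primes (k W0 : ℕ) : ∃ p : Fin k → ℕ, (∀ i, (p i).Prime) ∧ Function.Injective p ∧
    ∀ i, W0 < p i := by
  have hmono := Nat.nth_strictMono Nat.infinite_setOfPred_prime
  refine ⟨fun i => Nat.nth Nat.Prime (W0 + 1 + i), fun i => Nat.prime_nth_prime _, ?_, fun i => ?_⟩
  · intro i j hij
    have := hmono.injective hij
    exact Fin.ext (by omega)
  · have h1 : W0 + 1 + i ≤ Nat.nth Nat.Prime (W0 + 1 + i) := hmono.le_apply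
    show W0 < Nat.nth Nat.Prime (W0 + 1 + i)
    omega

theorem zero_notMem (h : Hyp k p B W0 W) : 0 ∉ A p B W := by
  rintro (h0 | ⟨y, _, hy⟩)
  · exact lt_irrefl _ h0.1
  · have := el_pos h y
    rw [← hy] at this
    simp at this

/-- Everything together. -/
theorem main (k : ℕ) (W : Finset ℕ) (hW : ∀ w ∈ W, 0 < w) : ∃ A : Set ℕ, 0 ∉ A ∧
    (∀ x : ℤ, ∃ j, j ≤ k + 2 ∧ IsSum A j x) ∧
    (∀ x : ℤ, x.natAbs ∈ W ↔ IsSum A (k + 2) x ∧ ∀ j < k + 2, ¬ IsSum A j x) ∧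
    ∃ c : ℝ, 0 < c ∧ ∃ t0 : ℝ, ∀ t : ℝ, t0 ≤ t → c * t ≤ cnt A t := by
  classical
  set W0 := W.sup id with hW0
  obtain ⟨p, hp, hinj, hlt⟩ := exists_primes k W0
  have hle : ∀ w ∈ W, w ≤ W0 := fun w hw => le_sup (f := id) hw
  have h : Hyp k p (24 * (2 * k + 2) + 8 * W0 + 8) W0 W :=
    ⟨hp, hinj, le_refl _, hW, hle, fun w hw i => lt_of_le_of_lt (hle w hw) (hlt i)⟩
  generalize 24 * (2 * k + 2) + 8 * W0 + 8 = B at h
  have hlong : ∀ w ∈ W, IsSum (A p B W) (k + 2) (w : ℤ) := by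
    intro w hw
    have h1 := two_more h (w : ℤ)
    have h2 : univ.filter (fun i : Fin k => ¬ (p i : ℤ) ∣ (w : ℤ)) = univ := by
      rw [filter_eq_self]
      intro i _ hd
      have h3 : p i ∣ w := by exact_mod_cast hd
      have := Nat.le_of_dvd (hW w hw) h3
      have := h.lt w hw i
      omega
    rwa [h2, card_univ, Fintype.card_fin] at h1
  have hsg : ∀ x : ℤ, ∀ j, IsSum (A p B W) j x ↔ IsSum (A p B W) j (x.natAbs : ℤ) := by
    intro x j
    rcases Int.natAbs_eq x with hx | hx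
    · rw [← hx]
    · constructor
      · intro h1
        have := h1.neg
        rwa [show -x = (x.natAbs : ℤ) by omega] at this
      · intro h1
        have := h1.neg
        rwa [show -(x.natAbs : ℤ) = x by omega] at this
  have hiff : ∀ x : ℤ, x.natAbs ∈ W ↔ IsSum (A p B W) (k + 2) x ∧
      ∀ j < k + 2, ¬ IsSum (A p B W) j x := by
    intro x
    constructor
    · intro hx
      refine ⟨(hsg x _).2 (hlong _ hx), fun j hj hjx => ?_⟩
      exact no_short h hx (by omega) ((hsg x j).1 hjx)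
    · rintro ⟨_, h2⟩
      by_contra hx
      obtain ⟨j, hj, hjx⟩ := short h x hx
      exact h2 j (by omega) hjx
  refine ⟨A p B W, zero_notMem h, fun x => ?_, hiff, cnt_lower h⟩
  by_cases hx : x.natAbs ∈ W
  · exact ⟨k + 2, le_refl _, ((hiff x).1 hx).1⟩
  · obtain ⟨j, hj, hjx⟩ := short h x hx
    exact ⟨j, by omega, hjx⟩

end Pool.Agent.X160.Gs
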