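import Pool.Agent.X160.Gs.Core

/-!
# Generating sets of positive density with a prescribed sphere
-/

set_option autoImplicit false
open Finset

namespace Pool.Agent.X160.Gs

/-- `x` is a sum of `n` elements of `A ∪ (-A)` (repetitions allowed). -/
def IsSum (A : Set ℕ) (n : ℕ) (x : ℤ) : Prop :=
  ∃ f : Fin n → ℤ, (∀ i, (f i).natAbs ∈ A) ∧ ∑ i, f i = x

theorem IsSum.zero (A : Set ℕ) : IsSum A 0 0 := ⟨fun i => i.elim0, fun i => i.elim0, by simp⟩

theorem IsSum.one {A : Set ℕ} {x : ℤ} (h : x.natAbs ∈ A) : IsSum A 1 x :=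
  ⟨fun _ => x, fun _ => h, by simp⟩

theorem IsSum.add {A : Set ℕ} {a b : ℕ} {x y : ℤ} (hx : IsSum A a x) (hy : IsSum A b y) :
    IsSum A (a + b) (x + y) := by
  obtain ⟨f, hf, rfl⟩ := hx
  obtain ⟨g, hg, rfl⟩ := hy
  refine ⟨Fin.append f g, fun i => ?_, ?_⟩
  · refine Fin.addCases (fun i => ?_) (fun i => ?_) i
    · rw [Fin.append_left]; exact hf i
    · rw [Fin.append_right]; exact hg i
  · rw [Fin.sum_univ_add]; simp

theorem IsSum.neg {A : Set ℕ} {a : ℕ} {x : ℤ} (hx : IsSum A a x) : IsSum A a (-x) := by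
  obtain ⟨f, hf, rfl⟩ := hx
  exact ⟨fun i => -f i, fun i => by rw [Int.natAbs_neg]; exact hf i, by rw [sum_neg_distrib]⟩

theorem IsSum.finset {A : Set ℕ} {ι : Type*} (F : Finset ι) (g : ι → ℤ)
    (h : ∀ i ∈ F, (g i).natAbs ∈ A) : IsSum A F.card (∑ i ∈ F, g i) := by
  classical
  induction F using Finset.induction_on with
  | empty => simpa using IsSum.zero A
  | insert x F hx ih =>
    rw [sum_insert hx, card_insert_of_notMem hx, add_comm F.card 1]
    exact (IsSum.one (h x (mem_insert_self _ _))).add (ih fun i hi => h i (mem_insert_of_mem hi))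

variable {k : ℕ}

/-- The differences `w - ∑ ± s(y_i)`. -/
def X (p : Fin k → ℕ) (B : ℕ) (W : Finset ℕ) : Set ℤ :=
  {x | ∃ w ∈ W, ∃ (y : Fin k → Idx k) (η : Fin k → ℤ),
    (∀ i, Good p (y i) ∧ (y i).1 = i ∧ |η i| = 1) ∧ x = w - ∑ i, η i * el p B (y i)}

/-- The multiples of `D` outside `X`. -/
def M (p : Fin k → ℕ) (B : ℕ) (W : Finset ℕ) : Set ℕ :=
  {m | 0 < m ∧ D p ∣ m ∧ (m : ℤ) ∉ X p B W ∧ -(m : ℤ) ∉ X p B W}

/-- The lacunary elements. -/
def O (p : Fin k → ℕ) (B : ℕ) : Set ℕ := {m | ∃ y, Good p y ∧ (m : ℤ) = el p B y}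

/-- The generating set. -/
def A (p : Fin k → ℕ) (B : ℕ) (W : Finset ℕ) : Set ℕ := M p B W ∪ O p B

/-- The standing hypotheses. -/
structure Hyp (k : ℕ) (p : Fin k → ℕ) (B W0 : ℕ) (W : Finset ℕ) : Prop where
  hp : ∀ i, (p i).Prime
  inj : Function.Injective p
  big : 24 * (2 * k + 2) + 8 * W0 + 8 ≤ B
  pos : ∀ w ∈ W, 0 < w
  le : ∀ w ∈ W, w ≤ W0
  lt : ∀ w ∈ W, ∀ i, w < p i

variable {p : Fin k → ℕ} {B W0 : ℕ} {W : Finset ℕ}

theorem el_pos (h : Hyp k p B W0 W) (y : Idx k) : 0 < el p B y := by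
  have h1 := el_lower (p := p) (B := B) y
  have h2 : (0 : ℤ) < D p := by exact_mod_cast D_pos h.hp
  have h3 : (0 : ℤ) < B := by have := h.big; exact_mod_cast (by omega : 0 < B)
  exact lt_of_lt_of_le (by positivity) h1

theorem mem_A_el (h : Hyp k p B W0 W) (y : Idx k) (hy : Good p y) : (el p B y).natAbs ∈ A p B W := by
  right
  refine ⟨y, hy, ?_⟩
  rw [Int.natCast_natAbs, abs_of_pos (el_pos h y)]

theorem mem_M_iff (x : ℤ) : x.natAbs ∈ M p B W ↔ x ≠ 0 ∧ (D p : ℤ) ∣ x ∧ x ∉ X p B W ∧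
    -x ∉ X p B W := by
  unfold M
  simp only [Set.mem_setOf_eq, Int.natAbs_pos]
  rw [← Int.natCast_dvd, Int.natCast_natAbs]
  rcases abs_cases x with ⟨h, _⟩ | ⟨h, _⟩
  · rw [h]
  · rw [h, neg_neg]; tauto

/-- Members of the lacunary part with a sign. -/
theorem of_mem_O {x : ℤ} (hx : x.natAbs ∈ O p B) :
    ∃ (y : Idx k) (η : ℤ), Good p y ∧ |η| = 1 ∧ x = η * el p B y := by
  obtain ⟨y, hy, hxy⟩ := hx
  rw [Int.natCast_natAbs] at hxy
  rcases abs_cases x with ⟨h, _⟩ | ⟨h, _⟩
  · exact ⟨y, 1, hy, abs_one, by rw [one_mul, ← hxy, h]⟩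
  · exact ⟨y, -1, hy, by simp, by rw [← hxy, h]; ring⟩

/-- The combination of a family. -/
theorem S_sum {ι : Type*} (F : Finset ι) (y : ι → Idx k) (c : ι → ℤ) :
    S p B (∑ i ∈ F, Finsupp.single (y i) (c i)) = ∑ i ∈ F, c i * el p B (y i) := by
  rw [map_sum]
  refine sum_congr rfl fun i _ => ?_
  unfold S
  rw [Finsupp.linearCombination_single, smul_eq_mul]

theorem support_sum {ι : Type*} (F : Finset ι) (y : ι → Idx k) (c : ι → ℤ) (z : Idx k)
    (hz : z ∈ (∑ i ∈ F, Finsupp.single (y i) (c i)).support) : ∃ i ∈ F, z = y i := by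
  classical
  rw [Finsupp.mem_support_iff, Finsupp.finset_sum_apply] at hz
  obtain ⟨i, hi, h⟩ := exists_ne_zero_of_sum_ne_zero hz
  refine ⟨i, hi, ?_⟩
  by_contra hne
  exact h (Finsupp.single_eq_of_ne hne)

theorem abs_one_mul {c : ℤ} (h : |c| = 1) : c * c = 1 := by
  rw [← abs_mul_abs_self, h, one_mul]

/-- A sum of lacunary elements is never in `W`. -/
theorem not_lac (h : Hyp k p B W0 W) {w : ℕ} (hw : w ∈ W) {ι : Type*} (F : Finset ι)
    (y : ι → Idx k) (c : ι → ℤ) (hy : ∀ i ∈ F, Good p (y i)) (hc : ∀ i ∈ F, |c i| = 1)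
    (hF : F.card ≤ 2 * k + 2) : (w : ℤ) ≠ ∑ i ∈ F, c i * el p B (y i) := by
  intro he
  set a : Idx k →₀ ℤ := ∑ i ∈ F, Finsupp.single (y i) (c i) with ha
  have hSa : S p B a = w := by rw [ha, S_sum, he]
  have hw0 := h.pos w hw
  have ha0 : a ≠ 0 := by
    intro h0
    rw [h0, map_zero] at hSa
    have : (0 : ℤ) < w := by exact_mod_cast hw0
    omega
  have hn : n1 a ≤ ((2 * k + 2 : ℕ) : ℤ) := by
    have h1 := n1_sum F (fun i => Finsupp.single (y i) (c i)) 1 (fun i hi => by
      rw [n1_single, hc i hi])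
    rw [mul_one] at h1
    exact h1.trans (by exact_mod_cast hF)
  have hg : ∀ z ∈ a.support, Good p z := by
    intro z hz
    obtain ⟨i, hi, rfl⟩ := support_sum F y c z hz
    exact hy i hi
  obtain ⟨z, hz⟩ := Finsupp.support_nonempty_iff.2 ha0
  have hBbig := h.big
  have hbig := big (B := B) h.hp (N := 2 * k + 2) (by omega) (by omega) a ha0 hn hg z hz
  rw [hSa, abs_of_nonneg (Int.natCast_nonneg w)] at hbig
  have hB1 : (1 : ℤ) ≤ B := by exact_mod_cast (by omega : 1 ≤ B)
  have h1 : (B : ℤ) ≤ (B : ℤ) ^ (ex z + 1) := by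
    calc (B : ℤ) = (B : ℤ) ^ 1 := (pow_one _).symm
      _ ≤ _ := pow_le_pow_right₀ hB1 (by omega)
  have h2 : (1 : ℤ) ≤ D p := by exact_mod_cast D_pos h.hp
  have h3 : (B : ℤ) ≤ D p * (B : ℤ) ^ (ex z + 1) := by nlinarith
  have h4 : (w : ℤ) ≤ W0 := by exact_mod_cast h.le w hw
  have h5 : (8 * W0 + 8 : ℤ) ≤ B := by
    exact_mod_cast (by omega : 8 * W0 + 8 ≤ B)
  have h6 : (0 : ℤ) ≤ W0 := Int.natCast_nonneg _
  linarith

/-- No element of `W` is a sum of at most `k + 1` elements of `A ∪ (-A)`. -/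
theorem no_short (h : Hyp k p B W0 W) {w : ℕ} (hw : w ∈ W) {n : ℕ} (hn : n ≤ k + 1) :
    ¬ IsSum (A p B W) n (w : ℤ) := by
  classical
  rintro ⟨f, hf, hsum⟩
  have hcl : ∀ i : Fin k, ∃ (j : Fin n) (y : Idx k) (η : ℤ),
      Good p y ∧ |η| = 1 ∧ y.1 = i ∧ f j = η * el p B y := by
    intro i
    by_contra hcon
    push Not at hcon
    have hdvd : (p i : ℤ) ∣ w := by
      rw [← hsum]
      refine dvd_sum fun j _ => ?_
      rcases hf j with hM | hO
      · rw [mem_M_iff] at hM
        exact (dvd_D p i).trans hM.2.1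
      · obtain ⟨y, η, hy, hη, hfy⟩ := of_mem_O hO
        rw [hfy]
        refine Dvd.dvd.mul_left (dvd_el y i fun hi => ?_) _
        exact hcon j y η hy hη hi.symm hfy
    have h1 := Int.le_of_dvd (by exact_mod_cast h.pos w hw) hdvd
    have h2 := h.lt w hw i
    have h3 : p i ≤ w := by exact_mod_cast h1
    omega
  choose J y η hgood hη hyi hfJ using hcl
  have hJ : Function.Injective J := by
    intro i i' hii
    by_contra hne
    have h1 : η i * el p B (y i) = η i' * el p B (y i') := by rw [← hfJ i, ← hfJ i', hii]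
    have h2 : (p (y i).1 : ℤ) ∣ el p B (y i') := dvd_el _ _ (by rw [hyi i, hyi i']; exact hne)
    have h3 : (p (y i).1 : ℤ) ∣ η i * el p B (y i) := by rw [h1]; exact Dvd.dvd.mul_left h2 _
    have h4 : (p (y i).1 : ℤ) ∣ el p B (y i) := by
      have := Dvd.dvd.mul_left h3 (η i)
      rwa [← mul_assoc, abs_one_mul (hη i), one_mul] at this
    exact not_dvd_el h.hp h.inj (y i) (hgood i) h4
  set C : Finset (Fin n) := univ \ univ.image J with hC
  have hsplit : (w : ℤ) = (∑ i, η i * el p B (y i)) + ∑ j ∈ C, f j := by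
    rw [← hsum, ← sum_sdiff (subset_univ (univ.image J)), sum_image (fun a _ b _ hab => hJ hab),
      add_comm]
    congr 1
    exact sum_congr rfl fun i _ => hfJ i
  have hcard : C.card ≤ 1 := by
    have h1 : (univ.image J).card = k := by
      rw [card_image_of_injective _ hJ, card_univ, Fintype.card_fin]
    have h2 := card_sdiff_add_card_eq_card (subset_univ (univ.image J))
    rw [h1, card_univ, Fintype.card_fin] at h2
    have h3 : C.card = (univ \ univ.image J).card := rfl
    omega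
  rcases C.eq_empty_or_nonempty with h0 | ⟨j0, hj0⟩
  · rw [h0, sum_empty, add_zero] at hsplit
    exact not_lac h hw univ y η (fun i _ => hgood i) (fun i _ => hη i)
      (by rw [card_univ, Fintype.card_fin]; omega) hsplit
  · have hC1 : C = {j0} := by
      rw [eq_singleton_iff_unique_mem]
      exact ⟨hj0, fun j hj => card_le_one.1 hcard j hj j0 hj0⟩
    rw [hC1, sum_singleton] at hsplit
    rcases hf j0 with hM | hO
    · rw [mem_M_iff] at hM
      refine hM.2.2.1 ⟨w, hw, y, η, fun i => ⟨hgood i, hyi i, hη i⟩, ?_⟩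
      linarith
    · obtain ⟨y', η', hy', hη', hfy⟩ := of_mem_O hO
      refine not_lac h hw (univ : Finset (Option (Fin k))) (fun o => o.elim y' y)
        (fun o => o.elim η' η) (fun o _ => ?_) (fun o _ => ?_) ?_ ?_
      · cases o
        · exact hy'
        · exact hgood _
      · cases o
        · exact hη'
        · exact hη _
      · rw [card_univ, Fintype.card_option, Fintype.card_fin]; omega
      · rw [Fintype.sum_option, hsplit, hfy, add_comm]
        rfl

/-- Multiples of `D` far from the powers of `B` are in `M`. -/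
theorem safe_mem (h : Hyp k p B W0 W) (v E : ℕ) (hE : 1 ≤ E) (h1 : 4 * (2 * k + 2) * B ^ E < v)
    (h2 : 4 * v < B ^ (E + 1)) : D p * v ∈ M p B W := by
  classical
  have hBbig := h.big
  have hB1 : (1 : ℤ) ≤ B := by exact_mod_cast (by omega : 1 ≤ B)
  have hD1 : (1 : ℤ) ≤ D p := by exact_mod_cast D_pos h.hp
  have hW0 : (0 : ℤ) ≤ W0 := Int.natCast_nonneg _
  have hBW : (8 * W0 + 8 : ℤ) ≤ B := by exact_mod_cast (by omega : 8 * W0 + 8 ≤ B)
  have hv0 : 0 < v := by omega
  have hBE : (B : ℤ) ≤ (B : ℤ) ^ E := by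
    calc (B : ℤ) = (B : ℤ) ^ 1 := (pow_one _).symm
      _ ≤ _ := pow_le_pow_right₀ hB1 hE
  have h1' : (4 * (2 * k + 2) : ℤ) * (B : ℤ) ^ E < v := by exact_mod_cast h1
  have h2' : 4 * (v : ℤ) < (B : ℤ) ^ (E + 1) := by exact_mod_cast h2
  have hk : (0 : ℤ) ≤ k := Int.natCast_nonneg _
  have key : ∀ x : ℤ, |x| = (D p : ℤ) * v → x ∉ X p B W := by
    rintro x hx ⟨w, hw, y, η, hy, hxw⟩
    have hw1 : (w : ℤ) ≤ W0 := by exact_mod_cast h.le w hw
    have hw0 : (0 : ℤ) ≤ w := Int.natCast_nonneg _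
    set a : Idx k →₀ ℤ := ∑ i, Finsupp.single (y i) (η i) with ha
    have hSa : S p B a = ∑ i, η i * el p B (y i) := by rw [ha, S_sum]
    have hSx : |S p B a| ≤ (D p : ℤ) * v + W0 ∧ (D p : ℤ) * v ≤ |S p B a| + W0 := by
      rw [hSa]
      set sg := ∑ i, η i * el p B (y i) with hsg
      rw [hxw] at hx
      constructor
      · have e1 : sg = w - (w - sg) := by ring
        calc |sg| = |(w : ℤ) - (w - sg)| := by rw [← e1]
          _ ≤ |(w : ℤ)| + |(w : ℤ) - sg| := abs_sub _ _
          _ ≤ _ := by rw [hx, abs_of_nonneg hw0]; linarith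
      · rw [← hx]
        have e1 := abs_sub (w : ℤ) sg
        rw [abs_of_nonneg hw0] at e1; linarith
    have hDv : (v : ℤ) ≤ (D p : ℤ) * v := by nlinarith [Int.natCast_nonneg v]
    rcases eq_or_ne a 0 with h0 | h0
    · rw [h0, map_zero, abs_zero] at hSx
      have : (0 : ℤ) ≤ (B : ℤ) ^ E := by positivity
      nlinarith [hSx.2]
    · have hn : n1 a ≤ ((2 * k + 2 : ℕ) : ℤ) := by
        have h3 := n1_sum univ (fun i => Finsupp.single (y i) (η i)) 1 (fun i _ => by
          rw [n1_single, (hy i).2.2])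
        rw [mul_one, card_univ, Fintype.card_fin] at h3
        push_cast at h3 ⊢
        linarith
      have hg : ∀ z ∈ a.support, Good p z := by
        intro z hz
        obtain ⟨i, _, rfl⟩ := support_sum univ y η z hz
        exact (hy i).1
      obtain ⟨z, hz, _, hdom⟩ := dom (B := B) h.hp (N := 2 * k + 2) (by omega) (by omega) a h0 hn hg
      have hlow := big (B := B) h.hp (N := 2 * k + 2) (by omega) (by omega) a h0 hn hg z hz
      have hPpos : (1 : ℤ) ≤ (B : ℤ) ^ (ex z + 1) := one_le_pow₀ hB1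
      have hBP : (B : ℤ) ≤ (B : ℤ) ^ (ex z + 1) := by
        calc (B : ℤ) = (B : ℤ) ^ 1 := (pow_one _).symm
          _ ≤ _ := pow_le_pow_right₀ hB1 (by omega)
      -- upper bound of the combination
      have hup : |S p B a| ≤ (3 * (2 * k + 2) : ℤ) * ((D p : ℤ) * (B : ℤ) ^ (ex z + 1)) := by
        have e1 : |S p B a| ≤ |S p B a - a z * el p B z| + |a z * el p B z| := by
          have := abs_add_le (S p B a - a z * el p B z) (a z * el p B z)
          simpa using this
        have e2 : |a z| ≤ ((2 * k + 2 : ℕ) : ℤ) := by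
          refine le_trans ?_ hn
          unfold n1
          exact single_le_sum (f := fun y => |a y|) (fun _ _ => abs_nonneg _) hz
        have e3 : |a z * el p B z| ≤ (2 * k + 2 : ℤ) * (2 * ((D p : ℤ) * (B : ℤ) ^ (ex z + 1))) := by
          rw [abs_mul, abs_of_pos (el_pos h z)]
          have e4 := el_upper (B := B) h.hp z (hg z hz)
          have e5 : (D p : ℤ) * ((B : ℤ) ^ (ex z + 1) + 1) ≤ 2 * ((D p : ℤ) * (B : ℤ) ^ (ex z + 1)) := by
            nlinarith
          push_cast at e2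
          exact mul_le_mul e2 (e4.trans e5) (el_pos h z).le (by positivity)
        have e6 : (0 : ℤ) ≤ (D p : ℤ) * (B : ℤ) ^ (ex z + 1) := by positivity
        have e7 : (0 : ℤ) ≤ k * ((D p : ℤ) * (B : ℤ) ^ (ex z + 1)) := mul_nonneg hk e6
        linarith
      -- compare the exponents
      clear hdom
      generalize hP : (B : ℤ) ^ (ex z + 1) = P at *
      generalize hQ : |S p B a| = Q at *
      have hDP : P ≤ (D p : ℤ) * P := le_mul_of_one_le_left (by linarith) hD1
      have hkP : (0 : ℤ) ≤ k * ((D p : ℤ) * P) := mul_nonneg hk (by linarith)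
      have hc1 : (v : ℤ) ≤ 4 * (2 * k + 2) * P := by
        have e1 : (D p : ℤ) * v ≤ (D p : ℤ) * (4 * (2 * k + 2) * P) := by
          have e4 : (D p : ℤ) * (4 * (2 * k + 2) * P) = 8 * (k * ((D p : ℤ) * P)) +
            8 * ((D p : ℤ) * P) := by ring
          have e5 : (3 * (2 * k + 2) : ℤ) * ((D p : ℤ) * P) = 6 * (k * ((D p : ℤ) * P)) +
            6 * ((D p : ℤ) * P) := by ring
          rw [e4]
          rw [e5] at hup
          linarith [hSx.2]
        exact le_of_mul_le_mul_left e1 (by linarith)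
      have hc2 : P ≤ 4 * (v : ℤ) := by
        have e1 : (D p : ℤ) * P ≤ (D p : ℤ) * (4 * v) := by
          have e3 : (D p : ℤ) * (4 * v) = 4 * ((D p : ℤ) * v) := by ring
          rw [e3]
          linarith [hSx.1]
        exact le_of_mul_le_mul_left e1 (by linarith)
      rcases le_or_gt (ex z + 1) E with hle | hlt
      · have e1 : P ≤ (B : ℤ) ^ E := hP ▸ pow_le_pow_right₀ hB1 hle
        have e2 : 4 * (2 * k + 2) * P ≤ (4 * (2 * k + 2) : ℤ) * (B : ℤ) ^ E :=
          mul_le_mul_of_nonneg_left e1 (by positivity)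
        linarith
      · have e1 : (B : ℤ) ^ (E + 1) ≤ P := hP ▸ pow_le_pow_right₀ hB1 hlt
        linarith
  refine ⟨Nat.mul_pos (D_pos h.hp) hv0, dvd_mul_right _ _, key _ ?_, key _ ?_⟩
  · push_cast; exact abs_of_nonneg (by positivity)
  · push_cast; rw [abs_neg]; exact abs_of_nonneg (by positivity)

/-- Every multiple of `D` is a difference of elements of `M`. -/
theorem diff (h : Hyp k p B W0 W) (t : ℤ) : ∃ m₁ ∈ M p B W, ∃ m₂ ∈ M p B W,
    (m₁ : ℤ) - m₂ = (D p : ℤ) * t := by
  have hBbig := h.big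
  set E := t.natAbs + 1 with hE
  have hlt : t.natAbs < B ^ E := by
    calc t.natAbs < E := by omega
      _ < B ^ E := Nat.lt_pow_self (by omega)
  have hpow : B ^ (E + 1) = B * B ^ E := by rw [pow_succ, mul_comm]
  have hpos : 0 < B ^ E := Nat.pow_pos (by omega)
  have hBE : 24 * (2 * k + 2) * B ^ E < B * B ^ E :=
    Nat.mul_lt_mul_of_pos_right (by omega) hpos
  have hN : B ^ E ≤ (2 * k + 2) * B ^ E := Nat.le_mul_of_pos_left _ (by omega)
  set Q := (2 * k + 2) * B ^ E with hQ
  have e1 : 24 * (2 * k + 2) * B ^ E = 24 * Q := by rw [hQ]; ring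
  have e2 : 4 * (2 * k + 2) * B ^ E = 4 * Q := by rw [hQ]; ring
  have hs : ∀ u, u ≤ B ^ E → D p * (5 * Q + u) ∈ M p B W := by
    intro u hu
    refine safe_mem h _ E (by omega) (by rw [e2]; omega) (by rw [hpow]; omega)
  rcases le_total 0 t with ht | ht
  · refine ⟨_, hs t.natAbs hlt.le, _, hs 0 (Nat.zero_le _), ?_⟩
    push_cast
    rw [abs_of_nonneg ht]; ring
  · refine ⟨_, hs 0 (Nat.zero_le _), _, hs t.natAbs hlt.le, ?_⟩
    push_cast
    rw [abs_of_nonpos ht]; ring

open Classical in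
/-- Approximation by lacunary elements. -/
theorem approx (h : Hyp k p B W0 W) (n : ℤ) (T : ℕ) : ∃ y : Fin k → Idx k,
    (∀ i, ¬ (p i : ℤ) ∣ n → (y i).1 = i ∧ Good p (y i) ∧ T ≤ ex (y i)) ∧
    (D p : ℤ) ∣ n - ∑ i ∈ univ.filter (fun i => ¬ (p i : ℤ) ∣ n), el p B (y i) := by
  have hy : ∀ i : Fin k, ∃ y : Idx k, ¬ (p i : ℤ) ∣ n → (y.1 = i ∧ Good p y ∧ T ≤ ex y ∧
      (p i : ℤ) ∣ n - el p B y) := by
    intro i
    by_cases hi : (p i : ℤ) ∣ n
    · exact ⟨(i, 0, 0), fun h => absurd hi h⟩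
    · obtain ⟨y, h1, h2, h3, h4⟩ := exists_res (B := B) h.hp h.inj i n hi T
      exact ⟨y, fun _ => ⟨h1, h2, h3, h4⟩⟩
  choose y hy using hy
  refine ⟨y, fun i hi => ⟨(hy i hi).1, (hy i hi).2.1, (hy i hi).2.2.1⟩, ?_⟩
  refine dvd_of_forall h.hp h.inj _ fun j => ?_
  by_cases hj : (p j : ℤ) ∣ n
  · refine dvd_sub hj (dvd_sum fun i hi => ?_)
    have hi' := (mem_filter.1 hi).2
    refine dvd_el _ _ fun hji => ?_
    rw [(hy i hi').1] at hji
    exact hi' (hji ▸ hj)
  · rw [← add_sum_erase _ _ (mem_filter.2 ⟨mem_univ j, hj⟩), ← sub_sub]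
    refine dvd_sub (hy j hj).2.2.2 (dvd_sum fun i hi => ?_)
    have hi' := (mem_filter.1 (mem_of_mem_erase hi)).2
    refine dvd_el _ _ fun hji => ?_
    rw [(hy i hi').1] at hji
    exact ne_of_mem_erase hi hji.symm

theorem mem_A_M {x : ℤ} (hx : x.natAbs ∈ M p B W) : x.natAbs ∈ A p B W := Or.inl hx

open Classical in
/-- Sums with two more elements. -/
theorem two_more (h : Hyp k p B W0 W) (n : ℤ) :
    IsSum (A p B W) ((univ.filter (fun i : Fin k => ¬ (p i : ℤ) ∣ n)).card + 2) n := by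
  obtain ⟨y, hy, t, ht⟩ := approx h n 0
  obtain ⟨m₁, hm₁, m₂, hm₂, hm⟩ := diff h t
  have h1 := IsSum.finset (A := A p B W) (univ.filter (fun i : Fin k => ¬ (p i : ℤ) ∣ n))
    (fun i => el p B (y i)) (fun i hi => mem_A_el h _ (hy i (mem_filter.1 hi).2).2.1)
  have h2 : IsSum (A p B W) 1 (m₁ : ℤ) := IsSum.one (mem_A_M (by simpa using hm₁))
  have h3 : IsSum (A p B W) 1 (-(m₂ : ℤ)) := IsSum.one (mem_A_M (by simpa using hm₂))
  have h4 := (h1.add h2).add h3
  have e : ∑ i ∈ univ.filter (fun i : Fin k => ¬ (p i : ℤ) ∣ n), el p B (y i) + (m₁ : ℤ)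
      + -(m₂ : ℤ) = n := by
    rw [← hm] at ht
    linarith
  rwa [e] at h4

open Classical in
/-- All integers outside `W ∪ (-W)` are sums of at most `k + 1` elements. -/
theorem short (h : Hyp k p B W0 W) (n : ℤ) (hn : n.natAbs ∉ W) :
    ∃ j, j ≤ k + 1 ∧ IsSum (A p B W) j n := by
  rcases eq_or_ne n 0 with rfl | hn0
  · exact ⟨0, Nat.zero_le _, IsSum.zero _⟩
  set I := univ.filter (fun i : Fin k => ¬ (p i : ℤ) ∣ n) with hI
  rcases eq_or_ne I univ with hIu | hIu
  swap
  · refine ⟨I.card + 2, ?_, two_more h n⟩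
    have : I.card < k := by
      have h1 : I.card < (univ : Finset (Fin k)).card :=
        card_lt_card (ssubset_univ_iff.2 hIu)
      rwa [card_univ, Fintype.card_fin] at h1
    omega
  have hall : ∀ i : Fin k, ¬ (p i : ℤ) ∣ n := fun i => by
    have : i ∈ I := by rw [hIu]; exact mem_univ i
    exact (mem_filter.1 this).2
  have hBbig := h.big
  set T := n.natAbs + W0 with hT
  obtain ⟨y, hy, hdvd⟩ := approx h n T
  rw [← hI, hIu] at hdvd
  have hBT : (2 * (n.natAbs + W0) : ℕ) < B ^ (T + 1) := by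
    have h1 : T < B ^ T := Nat.lt_pow_self (by omega)
    have h2 : 2 * B ^ T ≤ B * B ^ T := Nat.mul_le_mul_right _ (by omega)
    have h3 : B ^ (T + 1) = B * B ^ T := by rw [pow_succ, mul_comm]
    rw [h3]
    omega
  have hD1 : (1 : ℤ) ≤ D p := by exact_mod_cast D_pos h.hp
  have hB1 : (1 : ℤ) ≤ B := by exact_mod_cast (by omega : 1 ≤ B)
  have hnabs : |n| = (n.natAbs : ℤ) := (Int.natCast_natAbs n).symm
  have hBT' : 2 * (|n| + W0) < (B : ℤ) ^ (T + 1) := by rw [hnabs]; exact_mod_cast hBT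
  -- combinations with few terms and a large exponent
  have hlarge : ∀ a : Idx k →₀ ℤ, n1 a ≤ ((2 * k + 2 : ℕ) : ℤ) → (∀ z ∈ a.support, Good p z) →
      (∃ z ∈ a.support, T ≤ ex z) → |S p B a| ≤ |n| + W0 → False := by
    rintro a h1 h2 ⟨z, hz, hTz⟩ h3
    have ha0 : a ≠ 0 := by rintro rfl; simp at hz
    have h4 := big (B := B) h.hp (N := 2 * k + 2) (by omega) (by omega) a ha0 h1 h2 z hz
    have h5 : (B : ℤ) ^ (T + 1) ≤ (B : ℤ) ^ (ex z + 1) := pow_le_pow_right₀ hB1 (by omega)
    have h6 : (0 : ℤ) ≤ (B : ℤ) ^ (ex z + 1) := by positivity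
    nlinarith
  have hM : (n - ∑ i, el p B (y i)).natAbs ∈ M p B W := by
    rw [mem_M_iff]
    have hX : ∀ ε : ℤ, |ε| = 1 → ε * (n - ∑ i, el p B (y i)) ∉ X p B W := by
      rintro ε hε ⟨w, hw, y', η, hy', heq⟩
      have hw1 : (w : ℤ) ≤ W0 := by exact_mod_cast h.le w hw
      have hw0 : (0 : ℤ) ≤ w := Int.natCast_nonneg _
      set a : Idx k →₀ ℤ := ∑ i, (Finsupp.single (y i) 1 + Finsupp.single (y' i) (-(ε * η i)))
        with ha
      have hεε := abs_one_mul hε
      have hSa : S p B a = n - ε * w := by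
        have e1 : S p B a = ∑ i, el p B (y i) - ε * ∑ i, η i * el p B (y' i) := by
          rw [ha, map_sum, mul_sum, ← sum_sub_distrib]
          refine sum_congr rfl fun i _ => ?_
          rw [map_add]
          unfold S
          rw [Finsupp.linearCombination_single, Finsupp.linearCombination_single, smul_eq_mul,
            smul_eq_mul]
          ring
        have e2 : n - ∑ i, el p B (y i) = ε * w - ε * ∑ i, η i * el p B (y' i) := by
          have e3 : ε * (ε * (n - ∑ i, el p B (y i))) = ε * (w - ∑ i, η i * el p B (y' i)) := by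
            rw [heq]
          rw [← mul_assoc, hεε, one_mul] at e3
          rw [e3]; ring
        rw [e1]; linarith
      have hSle : |S p B a| ≤ |n| + W0 := by
        rw [hSa]
        refine (abs_sub _ _).trans ?_
        rw [abs_mul, hε, one_mul, abs_of_nonneg hw0]
        linarith
      have hn1 : n1 a ≤ ((2 * k + 2 : ℕ) : ℤ) := by
        have h3 := n1_sum univ (fun i => (Finsupp.single (y i) (1 : ℤ) +
          Finsupp.single (y' i) (-(ε * η i)))) 2 (fun i _ => by
            refine (n1_add _ _).trans ?_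
            rw [n1_single, n1_single, abs_neg, abs_mul, hε, (hy' i).2.2]
            norm_num)
        rw [card_univ, Fintype.card_fin] at h3
        push_cast at h3 ⊢
        linarith
      have hgood : ∀ z ∈ a.support, Good p z := by
        intro z hz
        rw [Finsupp.mem_support_iff, ha, Finsupp.finset_sum_apply] at hz
        obtain ⟨i, _, hi⟩ := exists_ne_zero_of_sum_ne_zero hz
        rw [Finsupp.add_apply] at hi
        by_cases h1 : z = y i
        · rw [h1]; exact (hy i (hall i)).2.1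
        · by_cases h2 : z = y' i
          · rw [h2]; exact (hy' i).1
          · rw [Finsupp.single_eq_of_ne h1, Finsupp.single_eq_of_ne h2] at hi
            exact absurd rfl hi
      by_cases hex : ∃ z ∈ a.support, T ≤ ex z
      · exact hlarge a hn1 hgood hex hSle
      · push Not at hex
        -- all terms cancel
        have hcancel : ∀ i, y' i = y i ∧ ε * η i = 1 := by
          intro i
          have hzero : a (y i) = 0 := by
            by_contra hne
            exact absurd (hy i (hall i)).2.2 (not_le.2 (hex (y i) (Finsupp.mem_support_iff.2 hne)))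
          rw [ha, Finsupp.finset_sum_apply, sum_eq_single i] at hzero
          · rw [Finsupp.add_apply, Finsupp.single_eq_same] at hzero
            by_cases hyy : y' i = y i
            · rw [hyy, Finsupp.single_eq_same] at hzero
              exact ⟨hyy, by linarith⟩
            · rw [Finsupp.single_eq_of_ne (fun h => hyy h.symm)] at hzero
              norm_num at hzero
          · intro j _ hji
            have h1 : y i ≠ y j := fun h => hji (by
              rw [← (hy i (hall i)).1, ← (hy j (hall j)).1, h])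
            have h2 : y i ≠ y' j := fun h => hji (by
              rw [← (hy i (hall i)).1, ← (hy' j).2.1, h])
            rw [Finsupp.add_apply, Finsupp.single_eq_of_ne h1, Finsupp.single_eq_of_ne h2, add_zero]
          · intro h; exact absurd (mem_univ i) h
        have ha0 : a = 0 := by
          rw [ha]
          refine sum_eq_zero fun i _ => ?_
          rw [(hcancel i).1, (hcancel i).2, ← Finsupp.single_add]
          simp
        rw [ha0, map_zero] at hSa
        have e1 : n = ε * w := by linarith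
        apply hn
        rw [e1, Int.natAbs_mul]
        have : ε.natAbs = 1 := by
          have := Int.natCast_natAbs ε
          rw [hε] at this
          exact_mod_cast this
        rw [this, one_mul, Int.natAbs_natCast]
        exact hw
    refine ⟨?_, hdvd, ?_, ?_⟩
    · intro h0
      set a : Idx k →₀ ℤ := ∑ i, Finsupp.single (y i) (1 : ℤ) with ha
      have hSa : S p B a = n := by
        rw [ha, S_sum]; simp only [one_mul]; linarith
      have hn1 : n1 a ≤ ((2 * k + 2 : ℕ) : ℤ) := by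
        have h3 := n1_sum univ (fun i => Finsupp.single (y i) (1 : ℤ)) 1 (fun i _ => by
          rw [n1_single, abs_one])
        rw [card_univ, Fintype.card_fin] at h3
        push_cast at h3 ⊢
        linarith
      have hsup : ∀ z ∈ a.support, ∃ i, z = y i := fun z hz => by
        obtain ⟨i, _, hi⟩ := support_sum univ y (fun _ => (1 : ℤ)) z hz
        exact ⟨i, hi⟩
      have ha0 : a ≠ 0 := by
        intro h1
        rw [h1, map_zero] at hSa
        exact hn0 hSa.symm
      obtain ⟨z, hz⟩ := Finsupp.support_nonempty_iff.2 ha0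
      refine hlarge a hn1 (fun z hz => ?_) ⟨z, hz, ?_⟩ ?_
      · obtain ⟨i, rfl⟩ := hsup z hz
        exact (hy i (hall i)).2.1
      · obtain ⟨i, rfl⟩ := hsup z hz
        exact (hy i (hall i)).2.2
      · rw [hSa]
        have : (0 : ℤ) ≤ W0 := Int.natCast_nonneg _
        linarith
    · have := hX 1 abs_one
      rwa [one_mul] at this
    · have := hX (-1) (by simp)
      rwa [neg_one_mul] at this
  refine ⟨k + 1, le_refl _, ?_⟩
  have h1 := IsSum.finset (A := A p B W) (univ : Finset (Fin k))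
    (fun i => el p B (y i)) (fun i _ => mem_A_el h _ (hy i (hall i)).2.1)
  have h2 := h1.add (IsSum.one (mem_A_M hM))
  rw [card_univ, Fintype.card_fin] at h2
  simpa using h2

end Pool.Agent.X160.Gs
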